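import Mathlib

namespace Pool.Agent.H65.BM.RamseyLib


universe u v

/-- Infinite Ramsey theorem for `r`-element sets and finitely many colours. -/
theorem infinite_ramsey {A : Type u} [Infinite A] {C : Type v} [Finite C] (r : ℕ)
    (f : Finset A → C) :
    ∃ (H : Set A) (c : C), H.Infinite ∧ ∀ s : Finset A, s.card = r → (↑s : Set A) ⊆ H → f s = c := by
  classical
  have key : ∀ g : Finset A → C, ∃ g' : Finset A → C, ∀ s : Finset A,
      ∀ᶠ x in (Filter.hyperfilter A : Filter A), g (insert x s) = g' s := by
    intro g
    have : ∀ s : Finset A, ∃ c, ∀ᶠ x in (Filter.hyperfilter A : Filter A),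
        g (insert x s) = c := by
      intro s
      obtain ⟨c, hc⟩ := Ultrafilter.eq_pure_of_finite
        ((Filter.hyperfilter A).map (fun x => g (insert x s)))
      refine ⟨c, ?_⟩
      have : ({c} : Set C) ∈ (Filter.hyperfilter A).map (fun x => g (insert x s)) := by
        rw [hc]; exact Ultrafilter.mem_pure.2 rfl
      exact this
    choose g' hg' using this
    exact ⟨g', hg'⟩
  choose step hstep using key
  obtain ⟨F, hF0, hFs⟩ : ∃ F : ℕ → Finset A → C, F 0 = f ∧ ∀ j, F (j + 1) = step (F j) :=
    ⟨fun j => Nat.rec f (fun _ g => step g) j, rfl, fun j => rfl⟩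
  have hnext : ∀ S : Finset A, ∃ x, x ∉ S ∧ ∀ j ∈ Finset.range (r + 1), ∀ s ∈ S.powerset,
      F j (insert x s) = F (j + 1) s := by
    intro S
    have h1 : ∀ᶠ x in (Filter.hyperfilter A : Filter A), x ∉ S := by
      have : (↑S : Set A)ᶜ ∈ (Filter.hyperfilter A : Filter A) :=
        Filter.hyperfilter_le_cofinite (S.finite_toSet.compl_mem_cofinite)
      exact this
    have h2 : ∀ᶠ x in (Filter.hyperfilter A : Filter A), ∀ j ∈ Finset.range (r + 1),
        ∀ s ∈ S.powerset, F j (insert x s) = F (j + 1) s := by
      rw [Filter.eventually_all_finset]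
      intro j _
      rw [Filter.eventually_all_finset]
      intro s _
      rw [hFs]
      exact hstep (F j) s
    exact (h1.and h2).exists
  choose next hn1 hn2 using hnext
  obtain ⟨T, hT0, hTs⟩ : ∃ T : ℕ → Finset A, T 0 = ∅ ∧ ∀ n, T (n + 1) = insert (next (T n)) (T n) :=
    ⟨fun n => Nat.rec ∅ (fun _ S => insert (next S) S) n, rfl, fun n => rfl⟩
  have hmono : Monotone T := monotone_nat_of_le_succ (fun n => by
    rw [hTs]; exact Finset.subset_insert _ _)
  have hclaim : ∀ n : ℕ, ∀ s ⊆ T n, ∀ k ≤ r, s.card = k → F (r - k) s = F r ∅ := by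
    intro n
    induction n with
    | zero =>
      intro s hs k hk hsk
      rw [hT0, Finset.subset_empty] at hs
      subst hs
      rw [Finset.card_empty] at hsk
      subst hsk
      rfl
    | succ n ih =>
      intro s hs k hk hsk
      rw [hTs] at hs
      by_cases hx : next (T n) ∈ s
      · have hs' : s.erase (next (T n)) ⊆ T n := by
          intro y hy
          have h1 := Finset.mem_erase.1 hy
          exact (Finset.mem_insert.1 (hs h1.2)).resolve_left h1.1
        have hc : (s.erase (next (T n))).card = k - 1 := by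
          rw [Finset.card_erase_of_mem hx, hsk]
        have hk1 : 1 ≤ k := by
          rw [← hsk]; exact Finset.card_pos.2 ⟨_, hx⟩
        have h1 := ih _ hs' (k - 1) (by omega) hc
        have h2 := hn2 (T n) (r - k) (Finset.mem_range.2 (by omega)) _ (Finset.mem_powerset.2 hs')
        rw [Finset.insert_erase hx] at h2
        rw [h2, show r - k + 1 = r - (k - 1) by omega]
        exact h1
      · refine ih s ?_ k hk hsk
        intro y hy
        refine (Finset.mem_insert.1 (hs hy)).resolve_left ?_
        rintro rfl
        exact hx hy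
  refine ⟨⋃ n, (T n : Set A), F r ∅, ?_, ?_⟩
  · have hinj : Function.Injective (fun n => next (T n)) := by
      have hne : ∀ m n, m < n → next (T m) ≠ next (T n) := by
        intro m n hmn h
        have h1 : next (T m) ∈ T (m + 1) := by rw [hTs]; exact Finset.mem_insert_self _ _
        have h2 : next (T m) ∈ T n := hmono (Nat.succ_le_of_lt hmn) h1
        rw [h] at h2
        exact hn1 _ h2
      intro m n h
      rcases lt_trichotomy m n with h1 | h1 | h1
      · exact absurd h (hne m n h1)
      · exact h1
      · exact absurd h.symm (hne n m h1)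
    refine (Set.infinite_range_of_injective hinj).mono ?_
    rintro _ ⟨n, rfl⟩
    refine Set.mem_iUnion.2 ⟨n + 1, ?_⟩
    rw [hTs]
    exact Finset.mem_coe.2 (Finset.mem_insert_self _ _)
  · intro s hs hsub
    have hex : ∃ n, s ⊆ T n := by
      have : ∀ a ∈ s, ∃ n, a ∈ T n := by
        intro a ha
        obtain ⟨n, hn⟩ := Set.mem_iUnion.1 (hsub (Finset.mem_coe.2 ha))
        exact ⟨n, Finset.mem_coe.1 hn⟩
      choose! N hN using this
      refine ⟨s.sup N, fun a ha => ?_⟩
      exact hmono (Finset.le_sup (f := N) ha) (hN a ha)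
    obtain ⟨n, hn⟩ := hex
    have := hclaim n s hn r le_rfl hs
    rw [Nat.sub_self, hF0] at this
    exact this

end Pool.Agent.H65.BM.RamseyLib
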